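import Pool.Agent.Helper158.Stall.Grp

/-!
A disproof of Conjecture G on products of conjugacy classes under Kervaire extensions.

The Kervaire extension is `F(b,c) → ⟨b, c, t ∣ t t b t⁻¹ c = 1⟩`: one new generator and one
relator whose exponent sum in `t` is `1`.
-/

set_option autoImplicit false

namespace Pool.Agent.Results.MP_9999b4_al.ReciprocityFails

open FreeGroup hiding map_mul map_inv map_one
open Pool.Agent.Helper158.Stall

universe u

/-- `G * F`: the free product of the group `G` and the free group on `t_0, …, t_{n-1}` -/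
abbrev FreeProd (G : Type u) [Group G] (n : ℕ) : Type u := Monoid.Coprod G (FreeGroup (Fin n))

/-- the exponent sum of `t_i`, i.e. the homomorphism `η_i : G * F → ℤ` which kills `G` and
sends `t_k` to `δ_{ik}` (the target is `ℤ` written multiplicatively) -/
def expSum (G : Type u) [Group G] (n : ℕ) (i : Fin n) : FreeProd G n →* Multiplicative ℤ :=
  Monoid.Coprod.lift 1 (FreeGroup.lift fun k => Multiplicative.ofAdd (if k = i then 1 else 0))

/-- the integer matrix `(η_i(w_j))_{i,j}` of a system `w_0, …, w_{n-1}` over `G` -/
def expMatrix {G : Type u} [Group G] {n : ℕ} (w : Fin n → FreeProd G n) :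
    Matrix (Fin n) (Fin n) ℤ :=
  Matrix.of fun i j => Multiplicative.toAdd (expSum G n i (w j))

/-- `H = (G * F)/⟨⟨w_0, …, w_{n-1}⟩⟩` -/
abbrev Extension {G : Type u} [Group G] {n : ℕ} (w : Fin n → FreeProd G n) : Type u :=
  FreeProd G n ⧸ Subgroup.normalClosure (Set.range w)

/-- the map `G → H` induced by the inclusion `G → G * F` -/
def extMap {G : Type u} [Group G] {n : ℕ} (w : Fin n → FreeProd G n) : G →* Extension w :=
  (QuotientGroup.mk' (Subgroup.normalClosure (Set.range w))).comp Monoid.Coprod.inl

/-- `x ∈ ∏ i, (g i)^K`: `x` is a product `a_0 ⋯ a_{r-1}` with each `a_i` in the conjugacy class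
of `g_i` in `K` -/
def InClassProduct {K : Type u} [Group K] {r : ℕ} (g : Fin r → K) (x : K) : Prop :=
  ∃ a : Fin r → K, (∀ i, IsConj (g i) (a i)) ∧ (List.ofFn a).prod = x

/-- the single relator `t t b t⁻¹ c` over the free group on `b = x_0` and `c = x_1` -/
def relator : Fin 1 → FreeProd (FreeGroup (Fin 2)) 1 := fun _ =>
  Monoid.Coprod.inr (of 0) * Monoid.Coprod.inr (of 0) * Monoid.Coprod.inl (of 0) *
    (Monoid.Coprod.inr (of 0))⁻¹ * Monoid.Coprod.inl (of 1)

/-! ### auxiliary facts -/

theorem det_relator : (expMatrix relator).det = 1 := by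
  simp [expMatrix, relator, expSum]

/-- the map from the free group on `b, c, t` -/
def psi : FreeGroup (Fin 3) →* Extension relator :=
  FreeGroup.lift ![extMap relator (of 0), extMap relator (of 1),
    QuotientGroup.mk' (Subgroup.normalClosure (Set.range relator)) (Monoid.Coprod.inr (of 0))]

theorem psi_W : psi (mk W) = 1 := by
  rw [W_eq]
  simp only [map_mul, map_inv, psi, FreeGroup.lift_apply_of, Matrix.cons_val_zero,
    Matrix.cons_val_one, Matrix.cons_val]
  show QuotientGroup.mk' (Subgroup.normalClosure (Set.range relator)) (relator 0) = 1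
  rw [QuotientGroup.mk'_apply, QuotientGroup.eq_one_iff]
  exact Subgroup.subset_normalClosure ⟨0, rfl⟩

theorem psi_letter (x : Fin 2 × Bool) : psi (mk (emb [x])) = extMap relator (mk [x]) := by
  obtain ⟨a, b⟩ := x
  have key : psi (mk [(a.castSucc, true)]) = extMap relator (mk [(a, true)]) := by
    show psi (of a.castSucc) = extMap relator (of a)
    rw [psi, FreeGroup.lift_apply_of]
    fin_cases a <;> rfl
  cases b with
  | true => exact key
  | false =>
    have h1 : (mk [(a.castSucc, false)] : FreeGroup (Fin 3)) = (mk [(a.castSucc, true)])⁻¹ := by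
      rw [inv_mk]; rfl
    have h2 : (mk [(a, false)] : FreeGroup (Fin 2)) = (mk [(a, true)])⁻¹ := by
      rw [inv_mk]; rfl
    show psi (mk [(a.castSucc, false)]) = _
    rw [h1, h2, map_inv, map_inv, key]

theorem psi_emb (L : List (Fin 2 × Bool)) : psi (mk (emb L)) = extMap relator (mk L) := by
  induction L with
  | nil =>
    show psi 1 = extMap relator 1
    rw [map_one, map_one]
  | cons x L ih =>
    have h1 : (mk (emb (x :: L)) : FreeGroup (Fin 3)) = mk (emb [x]) * mk (emb L) := by
      rw [mul_mk]; rfl
    rw [h1, mk_cons, map_mul, map_mul, psi_letter, ih]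

/-- the entries of the list which are single letters -/
def pick (p : (Option (Fin 2 × Bool) × Bool) × List (Fin 3 × Bool)) :
    Option ((Fin 2 × Bool) × List (Fin 3 × Bool)) := p.1.1.map (fun x => (x, p.2))

theorem psi_data (D : List ((Option (Fin 2 × Bool) × Bool) × List (Fin 3 × Bool))) :
    psi (D.map (fun p => mk p.2 * mk (item p.1) * (mk p.2)⁻¹)).prod =
      ((D.filterMap pick).map (fun q => psi (mk q.2) * extMap relator (mk [q.1]) *
        (psi (mk q.2))⁻¹)).prod := by
  induction D with
  | nil => rw [List.map_nil, List.prod_nil, map_one]; rfl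
  | cons p D ih =>
    obtain ⟨⟨o, s⟩, L⟩ := p
    rw [List.map_cons, List.prod_cons, map_mul, ih]
    cases o with
    | some x =>
      have : pick ((some x, s), L) = some (x, L) := rfl
      rw [List.filterMap_cons_some this, List.map_cons, List.prod_cons]
      congr 1
      rw [map_mul, map_mul, map_inv]
      congr 2
      exact psi_letter x
    | none =>
      have : pick ((none, s), L) = none := rfl
      rw [List.filterMap_cons_none this]
      have h : psi (mk (item (none, s))) = 1 := by
        cases s with
        | true => exact psi_W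
        | false =>
          have : (mk (invRev W) : FreeGroup (Fin 3)) = (mk W)⁻¹ := by rw [inv_mk]
          show psi (mk (invRev W)) = 1
          rw [this, map_inv, psi_W, inv_one]
      rw [map_mul, map_mul, map_inv, h, mul_one, mul_inv_cancel, one_mul]

/-- the eight letters -/
def letters : Fin 8 → Fin 2 × Bool :=
  ![(1, true), (0, false), (0, true), (1, true), (0, true), (1, true), (0, true), (1, true)]

/-- the nine elements of the free group on `b, c` -/
def gs : Fin 9 → FreeGroup (Fin 2) := Fin.cons (mk aw)⁻¹ (fun i => mk [letters i])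

theorem picked : ((data.filterMap pick).map Prod.fst) = List.ofFn letters := by
  decide +kernel

theorem in_ext : InClassProduct (fun i => extMap relator (gs i)) 1 := by
  obtain ⟨P, hP⟩ : ∃ P : List ((Fin 2 × Bool) × List (Fin 3 × Bool)),
    P = data.filterMap pick := ⟨_, rfl⟩
  have hfst : P.map Prod.fst = List.ofFn letters := by rw [hP]; exact picked
  have hlen : P.length = 8 := by
    have := congrArg List.length hfst
    simpa using this
  have hid : extMap relator (mk aw) = (P.map (fun q => psi (mk q.2) * extMap relator (mk [q.1]) *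
        (psi (mk q.2))⁻¹)).prod := by
    rw [hP, ← psi_data, ← psi_emb, identity]
  have hget : ∀ i : Fin 8, (P.get (i.cast hlen.symm)).1 = letters i := by
    intro i
    have h1 : (P.map Prod.fst).get (i.cast (by simp [hlen])) = letters i := by
      have : ∀ (Q : List (Fin 2 × Bool)) (hQ : Q = List.ofFn letters) (h : 8 = Q.length),
          Q.get (i.cast h) = letters i := by
        rintro Q rfl h
        rw [List.get_eq_getElem, List.getElem_ofFn]
        rfl
      exact this _ hfst _
    rw [← h1]
    simp
  refine ⟨Fin.cons (extMap relator (mk aw))⁻¹ (fun i : Fin 8 =>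
    psi (mk (P.get (i.cast hlen.symm)).2) * extMap relator (mk [letters i]) *
        (psi (mk (P.get (i.cast hlen.symm)).2))⁻¹), ?_, ?_⟩
  · intro i
    refine Fin.cases ?_ (fun i => ?_) i
    · simp only [gs, Fin.cons_zero, map_inv]
      exact IsConj.refl _
    · simp only [gs, Fin.cons_succ]
      exact isConj_iff.2 ⟨_, rfl⟩
  · rw [List.ofFn_succ, List.prod_cons]
    simp only [Fin.cons_zero, Fin.cons_succ]
    rw [inv_mul_eq_one, hid]
    congr 1
    apply List.ext_getElem
    · simp [hlen]
    · intro n h1 h2
      simp only [List.getElem_map, List.getElem_ofFn]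
      rw [← hget ⟨n, by simpa [hlen] using h1⟩]
      rfl

theorem not_in : ¬ InClassProduct gs 1 := by
  rintro ⟨a, ha, hprod⟩
  rw [List.ofFn_succ, List.prod_cons] at hprod
  obtain ⟨c0, hc0⟩ := isConj_iff.1 (ha 0)
  have hc : ∀ i : Fin 8, ∃ c, c * mk [letters i] * c⁻¹ = a i.succ := by
    intro i
    have := isConj_iff.1 (ha i.succ)
    simpa only [gs, Fin.cons_succ] using this
  choose c hc using hc
  simp only [gs, Fin.cons_zero] at hc0
  have key : (mk aw : FreeGroup (Fin 2)) =
      ((List.ofFn fun i : Fin 8 => (c0⁻¹ * c i, some (letters i))).map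
        (fun p => p.1 * mk (optW p.2) * p.1⁻¹)).prod := by
    have h2 : ∀ L : List (Fin 8), (L.map (fun i => (c0⁻¹ * c i) * mk [letters i] *
        (c0⁻¹ * c i)⁻¹)).prod = c0⁻¹ * (L.map (fun i => a i.succ)).prod * c0 := by
      intro L
      induction L with
      | nil => simp
      | cons i L ih =>
        rw [List.map_cons, List.prod_cons, ih, List.map_cons, List.prod_cons, ← hc i]
        group
    have h3 : ((List.ofFn fun i : Fin 8 => (c0⁻¹ * c i, some (letters i))).map
        (fun p => p.1 * mk (optW p.2) * p.1⁻¹)).prod =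
        ((List.finRange 8).map (fun i => (c0⁻¹ * c i) * mk [letters i] *
        (c0⁻¹ * c i)⁻¹)).prod := by
      rw [List.map_ofFn, List.ofFn_eq_map]
      rfl
    rw [h3, h2, ← List.ofFn_eq_map]
    have h4 : (List.ofFn fun i : Fin 8 => a i.succ).prod = (a 0)⁻¹ :=
      (eq_inv_of_mul_eq_one_right hprod)
    rw [h4, ← hc0]
    group
  have hG := deletion _ key
  refine not_good ?_
  have hs : ((List.ofFn fun i : Fin 8 => (c0⁻¹ * c i, some (letters i))).map
      (fun p => optM p.2)).sum = (P0 : Multiset (Fin 2 × Bool)) := by
    rw [List.map_ofFn]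
    show (List.ofFn (fun i : Fin 8 => optM (some (letters i)))).sum = _
    decide +kernel
  rw [hs] at hG
  exact hG

/-- Disproof of Conjecture G: for the Kervaire extension
`F(b,c) → H = ⟨b, c, t ∣ t t b t⁻¹ c = 1⟩` (`n = 1`, exponent sum `1`) there are nine elements
`g_0, …, g_8` of the free group `F(b,c)` such that `1` lies in the product of their conjugacy
classes in `H` but not in the product of their conjugacy classes in `F(b,c)`. -/
theorem result : (expMatrix relator).det = 1 ∧
    ∃ g : Fin 9 → FreeGroup (Fin 2),
      InClassProduct (fun i => extMap relator (g i)) 1 ∧ ¬ InClassProduct g 1 :=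
  ⟨det_relator, gs, in_ext, not_in⟩

end Pool.Agent.Results.MP_9999b4_al.ReciprocityFails
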